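import Pool.Agent.Helper28.U4.Value

/-!
# Level three
-/

set_option autoImplicit false
set_option linter.unusedSectionVars false

namespace Pool.Agent.Helper28.U4

open Pool.Agent.Helper28.BPack Pool.Agent.Helper61.Motz Pool.Agent.Helper38.Thick

variable {L : Type} [Lattice L] [BoundedOrder L] [Finite L] [IsUpperModularLattice L]

section

variable [DecidableEq L] [DecidableRel (α := L) (· ≤ ·)]

/-- From lines to points. -/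
theorem points_of_lines {A R : Finset L} {cc H : L → L} (F : {x // x ∈ R} → L)
    (hFi : Function.Injective F) (hF : ∀ x, F x ∈ pen A x.1 (x.1 ⊔ cc x.1) (H x.1)) :
    ∃ gg : L → L, (∀ x ∈ R, gg x ∈ A ∧ gg x ≤ H x ∧ ¬ gg x ≤ x ⊔ cc x) ∧
      (∀ x ∈ R, ∀ y ∈ R, x ⊔ gg x = y ⊔ gg y → x = y) := by
  have hex : ∀ x : L, ∃ z, ∀ h : x ∈ R, z ∈ A ∧ z ≤ H x ∧ ¬ z ≤ x ⊔ cc x ∧ x ⊔ z = F ⟨x, h⟩ := by
    intro x
    by_cases h : x ∈ R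
    · obtain ⟨z, h1, h2, h3, h4⟩ := mem_pen.mp (hF ⟨x, h⟩)
      exact ⟨z, fun _ => ⟨h1, h2, h3, h4⟩⟩
    · exact ⟨x, fun h' => absurd h' h⟩
  choose z hz using hex
  refine ⟨z, ?_, ?_⟩
  · intro x hx
    have h1 := hz x hx
    exact ⟨h1.1, h1.2.1, h1.2.2.1⟩
  · intro x hx y hy e
    have h1 : F ⟨x, hx⟩ = F ⟨y, hy⟩ := by
      rw [← (hz x hx).2.2.2, ← (hz y hy).2.2.2]
      exact e
    exact congrArg Subtype.val (hFi h1)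

/-- LEVEL 3. -/
theorem level3U {A R U' : Finset L} {u cs : L} {r cc H : L → L} {q : ℕ} (hA : ∀ a ∈ A, IsAtom a)
    (hu : rk u = 2) (hq : 2 ≤ q) (hU : ∀ c ∈ U', c ∈ A ∧ c ≤ u)
    (hrow : ∀ c ∈ U', ∀ x ∈ A, ¬ x ≤ u → (A.filter (· ≤ x ⊔ c)).card = q + 1)
    (hskew : ∀ g, rk g = 2 → (∀ c ∈ A, c ≤ u → ¬ c ≤ g) → (A.filter (· ≤ g)).card ≤ q + 1)
    (hmR : ∀ x, x ∈ R ↔ x ∈ A ∧ ¬ x ≤ u ∧ r x ≠ x)
    (hr : ∀ x ∈ A, ¬ x ≤ u → r x ∈ A ∧ ¬ r x ≤ u ∧ r x ≤ x ⊔ u)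
    (hrr : ∀ x ∈ A, ¬ x ≤ u → ∀ y ∈ A, ¬ y ≤ u → y ≤ x ⊔ u → r x = r y)
    (hccU : ∀ x ∈ R, cc x ∈ U') (hccr : ∀ x ∈ R, ¬ r x ≤ x ⊔ cc x)
    (hinj : ∀ x ∈ R, ∀ y ∈ R, x ⊔ cc x = y ⊔ cc y → x = y)
    (hS : ∀ c ∈ U', c ≠ cs → ∀ z ∈ A, ¬ z ≤ u → ¬ r z ≤ z ⊔ c →
      ∃ x ∈ R, cc x = c ∧ x ⊔ c = z ⊔ c)
    (hH : ∀ x ∈ R, rk (H x) = 3 ∧ x ⊔ cc x ≤ H x ∧ ¬ u ≤ H x ∧ ∃ z ∈ A, z ≤ H x ∧ ¬ z ≤ x ⊔ cc x)
    (hHinj : ∀ x ∈ R, ∀ y ∈ R, cc x = cc y → H x = H y → x = y) :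
    ∃ gg : L → L, (∀ x ∈ R, gg x ∈ A ∧ gg x ≤ H x ∧ ¬ gg x ≤ x ⊔ cc x) ∧
      (∀ x ∈ R, ∀ y ∈ R, x ⊔ gg x = y ⊔ gg y → x = y) := by
  have hq1 : 1 ≤ q := by omega
  have hpf : ∀ x ∈ R, ∀ g ∈ pen A x (x ⊔ cc x) (H x), rk g = 2 ∧ x ≤ g ∧ g ≤ H x ∧ ¬ cc x ≤ g ∧
      g ⊔ cc x = H x ∧ (∀ a ∈ A, a ≤ u → ¬ a ≤ g) := by
    intro x hx g hg
    obtain ⟨hxA, hxu, -⟩ := (hmR x).mp hx
    obtain ⟨hc, hcu⟩ := hU (cc x) (hccU x hx)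
    obtain ⟨h1, h2, h3, -⟩ := hH x hx
    exact pen_facts hA hu hxA hxu hc hcu h1 h2 h3 hg
  have hdem : ∀ x ∈ R, (1 : ℚ) ≤ ∑ g ∈ pen A x (x ⊔ cc x) (H x), share R cc cs q g (cc x) := by
    intro x hx
    obtain ⟨h1, h2, h3, h4⟩ := hH x hx
    exact value (cs := cs) (r := r) (U' := U') hA hu hq hU hrow hskew hmR hr hrr hccU hccr hinj hS
      hx h1 h2 h3 h4
  have hload : ∀ g, ∑ x ∈ R.filter (fun x => g ∈ pen A x (x ⊔ cc x) (H x)),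
      share R cc cs q g (cc x) ≤ 1 := by
    intro g
    rcases (R.filter (fun x => g ∈ pen A x (x ⊔ cc x) (H x))).eq_empty_or_nonempty with h0 | h0
    · rw [h0, Finset.sum_empty]
      exact zero_le_one
    · obtain ⟨x0, hx0⟩ := h0
      rw [Finset.mem_filter] at hx0
      obtain ⟨g2, -, -, -, -, gu⟩ := hpf x0 hx0.1 g hx0.2
      apply load_le hq1
      · refine le_trans (Finset.card_le_card ?_) (hskew g g2 gu)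
        intro y hy
        have h1 := Finset.mem_filter.mp hy
        exact Finset.mem_filter.mpr ⟨((hmR y).mp h1.1).1, h1.2⟩
      · intro x hx y hy e
        rw [Finset.mem_filter] at hx hy
        apply hHinj x hx.1 y hy.1 e
        rw [← (hpf x hx.1 g hx.2).2.2.2.2.1, ← (hpf y hy.1 g hy.2).2.2.2.2.1, e]
  obtain ⟨F, hFi, hF⟩ := hall_shares R (fun x => pen A x (x ⊔ cc x) (H x))
    (fun x g => share R cc cs q g (cc x)) (fun x _ g => share_nonneg hq1 g (cc x)) hdem hload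
  exact points_of_lines F hFi hF

end

end Pool.Agent.Helper28.U4
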