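import Pool.Agent.Helper38.Thick.Level3

/-!
# Level three when all lines through the points of a line have the same size
-/

set_option autoImplicit false
set_option linter.unusedSectionVars false

namespace Pool.Agent.Helper28.U4

open Pool.Agent.Helper28.BPack Pool.Agent.Helper61.Motz Pool.Agent.Helper38.Thick

/-- Hall's theorem from shares. -/
theorem hall_shares {L : Type} [DecidableEq L] (R : Finset L) (W : L → Finset L) (τ : L → L → ℚ)
    (h0 : ∀ x ∈ R, ∀ g, 0 ≤ τ x g)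
    (hdem : ∀ x ∈ R, 1 ≤ ∑ g ∈ W x, τ x g)
    (hload : ∀ g, ∑ x ∈ R.filter (fun x => g ∈ W x), τ x g ≤ 1) :
    ∃ F : {x // x ∈ R} → L, Function.Injective F ∧ ∀ x, F x ∈ W x.1 := by
  apply (Finset.all_card_le_biUnion_card_iff_exists_injective (fun x : {x // x ∈ R} => W x.1)).mp
  intro s
  have h1 : (s.card : ℚ) ≤ ∑ x ∈ s, ∑ g ∈ W x.1, τ x.1 g := by
    calc (s.card : ℚ) = ∑ x ∈ s, (1 : ℚ) := by simp
      _ ≤ _ := Finset.sum_le_sum fun x _ => hdem x.1 x.2
  have h2 : ∑ x ∈ s, ∑ g ∈ W x.1, τ x.1 g =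
      ∑ g ∈ s.biUnion (fun x => W x.1), ∑ x ∈ s.filter (fun x => g ∈ W x.1), τ x.1 g := by
    have h3 : ∀ x ∈ s, ∑ g ∈ W x.1, τ x.1 g =
        ∑ g ∈ s.biUnion (fun x => W x.1), if g ∈ W x.1 then τ x.1 g else 0 := by
      intro x hx
      rw [← Finset.sum_filter]
      apply Finset.sum_congr
      · ext g
        rw [Finset.mem_filter, Finset.mem_biUnion]
        exact ⟨fun h => ⟨⟨x, hx, h⟩, h⟩, fun h => h.2⟩
      · intros; rfl
    rw [Finset.sum_congr rfl h3, Finset.sum_comm]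
    apply Finset.sum_congr rfl
    intro g _
    rw [Finset.sum_filter]
  have h4 : ∑ g ∈ s.biUnion (fun x => W x.1), ∑ x ∈ s.filter (fun x => g ∈ W x.1), τ x.1 g ≤
      ((s.biUnion (fun x => W x.1)).card : ℚ) := by
    calc _ ≤ ∑ g ∈ s.biUnion (fun x => W x.1), (1 : ℚ) := by
          apply Finset.sum_le_sum
          intro g _
          refine le_trans ?_ (hload g)
          have e1 : ∑ x ∈ s.filter (fun x => g ∈ W x.1), τ x.1 g =
              ∑ x ∈ (s.filter (fun x => g ∈ W x.1)).map (Function.Embedding.subtype _),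
                τ x g := by
            rw [Finset.sum_map]
            rfl
          rw [e1]
          apply Finset.sum_le_sum_of_subset_of_nonneg
          · intro x hx
            rw [Finset.mem_map] at hx
            obtain ⟨y, hy, rfl⟩ := hx
            rw [Finset.mem_filter] at hy ⊢
            exact ⟨y.2, hy.2⟩
          · intro x hx _
            rw [Finset.mem_filter] at hx
            exact h0 x hx.1 g
      _ = _ := by simp
  have h5 : (s.card : ℚ) ≤ ((s.biUnion (fun x => W x.1)).card : ℚ) := by linarith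
  exact_mod_cast h5

/-- The weight of a user of a line with `n` users, `m` of them of the last colour. -/
def wt (q n m : ℕ) (s : Prop) [Decidable s] : ℚ :=
  if q < n ∧ m = 1 then (if s then (1 : ℚ) / q else ((q : ℚ) - 1) / q ^ 2) else (1 : ℚ) / n

theorem wt_nonneg {q n m : ℕ} (hq : 1 ≤ q) (s : Prop) [Decidable s] : 0 ≤ wt q n m s := by
  have h1 : (1 : ℚ) ≤ q := by exact_mod_cast hq
  unfold wt
  split_ifs
  · positivity
  · apply div_nonneg (by linarith) (by positivity)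
  · positivity

theorem wt_low {q n m ρ : ℕ} (hq : 1 ≤ q) (hn : 1 ≤ n) (h : n + ρ ≤ q + 1) (s : Prop)
    [Decidable s] (hs : ¬ s) : ((q : ℚ) - 1 + ρ) / q ^ 2 ≤ wt q n m s := by
  have h1 : (1 : ℚ) ≤ q := by exact_mod_cast hq
  have hn' : (1 : ℚ) ≤ n := by exact_mod_cast hn
  have hq2 : (0 : ℚ) < q ^ 2 := by positivity
  unfold wt
  rw [if_neg hs]
  by_cases hc : q < n ∧ m = 1
  · rw [if_pos hc]
    have h2 : ρ = 0 := by omega
    rw [h2]
    simp
  · rw [if_neg hc]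
    rw [div_le_div_iff₀ hq2 (by linarith)]
    rcases Nat.eq_zero_or_pos ρ with h2 | h2
    · rw [h2] at h ⊢
      have h3 : (n : ℚ) ≤ q + 1 := by
        have : n ≤ q + 1 := by omega
        exact_mod_cast this
      push_cast
      nlinarith
    · have h3 : (n : ℚ) + ρ ≤ q + 1 := by exact_mod_cast h
      have h4 : (1 : ℚ) ≤ ρ := by exact_mod_cast h2
      nlinarith [sq_nonneg ((ρ : ℚ) - 1)]

theorem wt_short {q n m : ℕ} (hn : 1 ≤ n) (h : n ≤ q) (s : Prop)
    [Decidable s] : (1 : ℚ) / q ≤ wt q n m s := by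
  have hn' : (1 : ℚ) ≤ n := by exact_mod_cast hn
  have h' : (n : ℚ) ≤ q := by exact_mod_cast h
  unfold wt
  rw [if_neg (by omega)]
  exact one_div_le_one_div_of_le (by linarith) h'

variable {L : Type} [Lattice L] [BoundedOrder L] [Finite L] [IsUpperModularLattice L]

/-- The lines of a pencil. -/
theorem pen_facts [DecidableEq L] [DecidableRel (α := L) (· ≤ ·)] {A : Finset L} {u x c H g : L}
    (hA : ∀ a ∈ A, IsAtom a) (hu : rk u = 2) (hx : x ∈ A) (hxu : ¬ x ≤ u) (hc : c ∈ A)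
    (hcu : c ≤ u) (hH : rk H = 3) (hle : x ⊔ c ≤ H) (huH : ¬ u ≤ H)
    (hg : g ∈ pen A x (x ⊔ c) H) :
    rk g = 2 ∧ x ≤ g ∧ g ≤ H ∧ ¬ c ≤ g ∧ g ⊔ c = H ∧ (∀ a ∈ A, a ≤ u → ¬ a ≤ g) := by
  obtain ⟨z, hz, hzH, hzk, rfl⟩ := mem_pen.mp hg
  have hxz : x ≠ z := fun h => hzk (h ▸ le_sup_left)
  have h2 : rk (x ⊔ z) = 2 := rk_line (hA x hx) (hA z hz) hxz
  have hxc : x ≠ c := fun h => hxu (by rw [h]; exact hcu)
  have hn : ¬ c ≤ x ⊔ z := by
    intro h
    have h3 : x ⊔ c = x ⊔ z := line_of (hA x hx) (hA c hc) hxc le_sup_left h h2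
    exact hzk (h3 ▸ le_sup_right)
  have hle' : x ⊔ z ≤ H := sup_le (le_sup_left.trans hle) hzH
  have hcH : c ≤ H := le_sup_right.trans hle
  refine ⟨h2, le_sup_left, hle', hn, ?_, ?_⟩
  · exact eq_of_le_of_rk (sup_le hle' hcH) (by rw [rk_sup_atom (hA c hc) hn, h2, hH])
  · intro a ha hau hag
    by_cases hac : a = c
    · exact hn (hac ▸ hag)
    · have e : a ⊔ c = u := line_of (hA a ha) (hA c hc) hac hau hcu hu
      exact huH (e ▸ sup_le (hag.trans hle') hcH)

/-- Points of a plane through `x ⊔ c`, off this line, are not on `u`. -/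
theorem off_u {A : Finset L} {u c H z k : L}
    (hA : ∀ a ∈ A, IsAtom a) (hu : rk u = 2) (hc : c ∈ A)
    (hcu : c ≤ u) (hck : c ≤ k) (hle : k ≤ H) (huH : ¬ u ≤ H) (hz : z ∈ A) (hzH : z ≤ H)
    (hzk : ¬ z ≤ k) : ¬ z ≤ u := by
  intro hzu
  have hzc : z ≠ c := fun h => hzk (h ▸ hck)
  have e : z ⊔ c = u := line_of (hA z hz) (hA c hc) hzc hzu hcu hu
  exact huH (e ▸ sup_le hzH (hck.trans hle))

/-- Two points of a row with the same join with a point off the row. -/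
theorem row_inj {u x c z z' : L} (hx : IsAtom x) (hc : IsAtom c) (hz : IsAtom z)
    (hz' : IsAtom z') (hxu : ¬ x ≤ u) (hzu : ¬ z ≤ u) (hcu : c ≤ u)
    (hzx : ¬ z ≤ x ⊔ c) (hrow : z' ≤ z ⊔ c) (he : x ⊔ z = x ⊔ z') : z = z' := by
  by_contra hne
  have hzc : z ≠ c := fun h => hzu (h ▸ hcu)
  have hxc : x ≠ c := fun h => hxu (h ▸ hcu)
  have hxz : x ≠ z := fun h => hzx (h ▸ le_sup_left)
  have h1 : z ⊔ z' = z ⊔ c := line_of hz hz' hne le_sup_left hrow (rk_line hz hc hzc)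
  have h2 : z ⊔ z' = x ⊔ z := line_of hz hz' hne le_sup_right (he ▸ le_sup_right)
    (rk_line hx hz hxz)
  have h3 : x ≤ z ⊔ c := by rw [← h1, h2]; exact le_sup_left
  have h4 : x ⊔ c = z ⊔ c := line_of hx hc hxc h3 le_sup_right (rk_line hz hc hzc)
  exact hzx (h4 ▸ le_sup_left)

/-- A pencil has at least as many lines as a row has points, its colour left out. -/
theorem pen_card [DecidableEq L] [DecidableRel (α := L) (· ≤ ·)] {A : Finset L} {u x c H z : L}
    {q : ℕ} (hA : ∀ a ∈ A, IsAtom a) (hu : rk u = 2) (hx : x ∈ A) (hxu : ¬ x ≤ u) (hc : c ∈ A)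
    (hcu : c ≤ u) (hle : x ⊔ c ≤ H) (huH : ¬ u ≤ H)
    (hz : z ∈ A) (hzH : z ≤ H) (hzk : ¬ z ≤ x ⊔ c)
    (hrow : (A.filter (· ≤ z ⊔ c)).card = q + 1) : q ≤ (pen A x (x ⊔ c) H).card := by
  have hzu := off_u hA hu hc hcu le_sup_right hle huH hz hzH hzk
  have hzc : z ≠ c := fun h => hzu (h ▸ hcu)
  have hxc : x ≠ c := fun h => hxu (h ▸ hcu)
  have hoff : ∀ y ∈ A, y ≤ z ⊔ c → y ≠ c → ¬ y ≤ x ⊔ c := by
    intro y hy h1 h2 h3
    have e1 : y ⊔ c = z ⊔ c := line_of (hA y hy) (hA c hc) h2 h1 le_sup_right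
      (rk_line (hA z hz) (hA c hc) hzc)
    have e2 : y ⊔ c = x ⊔ c := line_of (hA y hy) (hA c hc) h2 h3 le_sup_right
      (rk_line (hA x hx) (hA c hc) hxc)
    exact hzk (by rw [← e2, e1]; exact le_sup_left)
  have h1 : ((A.filter (· ≤ z ⊔ c)).erase c).card = q := by
    rw [Finset.card_erase_of_mem (Finset.mem_filter.mpr ⟨hc, le_sup_right⟩), hrow]
    rfl
  rw [← h1]
  apply Finset.card_le_card_of_injOn (fun y => x ⊔ y)
  · intro y hy
    rw [Finset.mem_coe, Finset.mem_erase, Finset.mem_filter] at hy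
    rw [Finset.mem_coe, mem_pen]
    exact ⟨y, hy.2.1, hy.2.2.trans (sup_le hzH (le_sup_right.trans hle)),
      hoff y hy.2.1 hy.2.2 hy.1, rfl⟩
  · intro y hy y' hy' e
    rw [Finset.mem_coe, Finset.mem_erase, Finset.mem_filter] at hy hy'
    have hyk := hoff y hy.2.1 hy.2.2 hy.1
    have hyu := off_u hA hu hc hcu le_sup_right hle huH hy.2.1
      (hy.2.2.trans (sup_le hzH (le_sup_right.trans hle))) hyk
    have e1 : y ⊔ c = z ⊔ c := line_of (hA y hy.2.1) (hA c hc) hy.1 hy.2.2 le_sup_right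
      (rk_line (hA z hz) (hA c hc) hzc)
    exact row_inj (hA x hx) (hA c hc) (hA y hy.2.1) (hA y' hy'.2.1) hxu hyu hcu hyk
      (e1 ▸ hy'.2.2) e

end Pool.Agent.Helper28.U4
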