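import Pool.Agent.Helper28.U4.Level3

/-!
# The share of a colour on a skew line
-/

set_option autoImplicit false
set_option linter.unusedSectionVars false

namespace Pool.Agent.Helper28.U4

open Pool.Agent.Helper28.BPack Pool.Agent.Helper61.Motz Pool.Agent.Helper38.Thick

variable {L : Type} [Lattice L] [BoundedOrder L] [Finite L] [IsUpperModularLattice L]

section

variable [DecidableEq L] [DecidableRel (α := L) (· ≤ ·)]

/-- The users on `g`. -/
def us (R : Finset L) (g : L) : Finset L := R.filter (· ≤ g)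

/-- The weight of a user `y` on `g`. -/
def wtg (R : Finset L) (cc : L → L) (cs : L) (q : ℕ) (g y : L) : ℚ :=
  wt q (us R g).card ((us R g).filter (fun z => cc z = cs)).card (cc y = cs)

/-- The share of the colour `c` on `g`. -/
def share (R : Finset L) (cc : L → L) (cs : L) (q : ℕ) (g c : L) : ℚ :=
  ∑ y ∈ (us R g).filter (fun z => cc z = c), wtg R cc cs q g y

theorem wtg_nonneg {R : Finset L} {cc : L → L} {cs : L} {q : ℕ} (hq : 1 ≤ q) (g y : L) :
    0 ≤ wtg R cc cs q g y := wt_nonneg hq _

theorem share_nonneg {R : Finset L} {cc : L → L} {cs : L} {q : ℕ} (hq : 1 ≤ q) (g c : L) :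
    0 ≤ share R cc cs q g c := Finset.sum_nonneg fun y _ => wtg_nonneg hq g y

/-- The total weight of the users on a line is at most one. -/
theorem sum_wtg {R : Finset L} {cc : L → L} {cs : L} {q : ℕ} (hq : 1 ≤ q) {g : L}
    (hg : (us R g).card ≤ q + 1) : ∑ y ∈ us R g, wtg R cc cs q g y ≤ 1 := by
  have h1 : (1 : ℚ) ≤ q := by exact_mod_cast hq
  by_cases hc : q < (us R g).card ∧ ((us R g).filter (fun z => cc z = cs)).card = 1
  · have e : ∀ y ∈ us R g, wtg R cc cs q g y =
        if cc y = cs then (1 : ℚ) / q else ((q : ℚ) - 1) / q ^ 2 := by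
      intro y _
      simp only [wtg, wt, if_pos hc]
    rw [Finset.sum_congr rfl e, Finset.sum_ite, Finset.sum_const, Finset.sum_const, hc.2]
    have h2 := Finset.card_filter_add_card_filter_not (s := us R g) (fun z => cc z = cs)
    have h3 : ((us R g).filter (fun z => ¬ cc z = cs)).card = q := by omega
    rw [h3]
    simp only [nsmul_eq_mul]
    push_cast
    have hq0 : (q : ℚ) ≠ 0 := by positivity
    have : (1 : ℚ) * (1 / q) + q * ((q - 1) / q ^ 2) = 1 := by
      field_simp
      ring
    exact this.le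
  · have e : ∀ y ∈ us R g, wtg R cc cs q g y = (1 : ℚ) / (us R g).card := by
      intro y _
      simp only [wtg, wt, if_neg hc]
    rw [Finset.sum_congr rfl e, Finset.sum_const, nsmul_eq_mul, mul_one_div]
    exact div_self_le_one _

/-- The last colour gets at least `1 / q`. -/
theorem share_last {R : Finset L} {cc : L → L} {cs : L} {q : ℕ} (hq : 1 ≤ q) {g x : L}
    (hg : (us R g).card ≤ q + 1) (hx : x ∈ us R g) (hxc : cc x = cs) :
    (1 : ℚ) / q ≤ share R cc cs q g cs := by
  have h1 : (1 : ℚ) ≤ q := by exact_mod_cast hq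
  have hxm : x ∈ (us R g).filter (fun z => cc z = cs) := Finset.mem_filter.mpr ⟨hx, hxc⟩
  have hm : 1 ≤ ((us R g).filter (fun z => cc z = cs)).card := Finset.card_pos.mpr ⟨x, hxm⟩
  have hn : 1 ≤ (us R g).card := Finset.card_pos.mpr ⟨x, hx⟩
  have hone : wtg R cc cs q g x ≤ share R cc cs q g cs :=
    Finset.single_le_sum (f := fun y => wtg R cc cs q g y) (fun y _ => wtg_nonneg hq g y) hxm
  by_cases hnq : (us R g).card ≤ q
  · exact (wt_short hn hnq _).trans hone
  · by_cases hm1 : ((us R g).filter (fun z => cc z = cs)).card = 1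
    · refine le_trans ?_ hone
      simp only [wtg, wt]
      rw [if_pos ⟨by omega, hm1⟩, if_pos hxc]
    · have hnq' : (us R g).card = q + 1 := by omega
      have e : share R cc cs q g cs =
          ((us R g).filter (fun z => cc z = cs)).card * (1 / ((q : ℚ) + 1)) := by
        rw [share, ← nsmul_eq_mul, ← Finset.sum_const]
        apply Finset.sum_congr rfl
        intro y _
        simp only [wtg, wt]
        rw [if_neg (fun h => hm1 h.2), hnq']
        push_cast
        rfl
      rw [e]
      have hm2 : (2 : ℚ) ≤ ((us R g).filter (fun z => cc z = cs)).card := by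
        have : 2 ≤ ((us R g).filter (fun z => cc z = cs)).card := by omega
        exact_mod_cast this
      rw [mul_one_div, div_le_div_iff₀ (by linarith) (by linarith)]
      nlinarith

/-- A colour used by `x` and by the points of `M` on `g`. -/
theorem share_low {R : Finset L} {cc : L → L} {cs : L} {q : ℕ} (hq : 1 ≤ q) {g x : L} {ρ : ℕ}
    (hg : (us R g).card + ρ ≤ q + 1) (hx : x ∈ us R g) (hxc : cc x ≠ cs) {M : Finset L}
    (hM : ∀ y ∈ M, y ∈ us R g ∧ cc y = cc x ∧ y ≠ x) :
    ((q : ℚ) - 1 + ρ) / q ^ 2 + M.card * (((q : ℚ) - 1) / q ^ 2) ≤ share R cc cs q g (cc x) := by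
  have hn : 1 ≤ (us R g).card := Finset.card_pos.mpr ⟨x, hx⟩
  have hxM : x ∉ M := fun h => (hM x h).2.2 rfl
  have hsub : insert x M ⊆ (us R g).filter (fun z => cc z = cc x) := by
    intro y hy
    rw [Finset.mem_insert] at hy
    rw [Finset.mem_filter]
    rcases hy with rfl | hy
    · exact ⟨hx, rfl⟩
    · exact ⟨(hM y hy).1, (hM y hy).2.1⟩
  have h2 : ∑ y ∈ insert x M, wtg R cc cs q g y ≤ share R cc cs q g (cc x) :=
    Finset.sum_le_sum_of_subset_of_nonneg hsub (fun y _ _ => wtg_nonneg hq g y)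
  rw [Finset.sum_insert hxM] at h2
  have h3 : ((q : ℚ) - 1 + ρ) / q ^ 2 ≤ wtg R cc cs q g x := wt_low hq hn hg _ hxc
  have h4 : M.card * (((q : ℚ) - 1) / q ^ 2) ≤ ∑ y ∈ M, wtg R cc cs q g y := by
    rw [← nsmul_eq_mul, ← Finset.sum_const]
    apply Finset.sum_le_sum
    intro y hy
    have h5 := wt_low (q := q) (ρ := 0) (m := ((us R g).filter (fun z => cc z = cs)).card) hq hn
      (by omega) (cc y = cs) (by rw [(hM y hy).2.1]; exact hxc)
    rw [wtg]
    simpa using h5
  linarith

/-- Short lines. -/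
theorem share_short {R : Finset L} {cc : L → L} {cs : L} {q : ℕ} (hq : 1 ≤ q) {g x : L}
    (hg : (us R g).card ≤ q) (hx : x ∈ us R g) :
    (1 : ℚ) / q ≤ share R cc cs q g (cc x) := by
  have hn : 1 ≤ (us R g).card := Finset.card_pos.mpr ⟨x, hx⟩
  have hxm : x ∈ (us R g).filter (fun z => cc z = cc x) := Finset.mem_filter.mpr ⟨hx, rfl⟩
  exact (wt_short hn hg _).trans
    (Finset.single_le_sum (f := fun y => wtg R cc cs q g y) (fun y _ => wtg_nonneg hq g y) hxm)

/-- The load of a line. -/
theorem load_le {R X : Finset L} {cc : L → L} {cs : L} {q : ℕ} (hq : 1 ≤ q) {g : L}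
    (hg : (us R g).card ≤ q + 1) (hX : ∀ x ∈ X, ∀ y ∈ X, cc x = cc y → x = y) :
    ∑ x ∈ X, share R cc cs q g (cc x) ≤ 1 := by
  refine le_trans ?_ (sum_wtg (R := R) (cc := cc) (cs := cs) hq hg)
  have e : ∀ x ∈ X, share R cc cs q g (cc x) =
      ∑ y ∈ us R g, if cc y = cc x then wtg R cc cs q g y else 0 := by
    intro x _
    rw [share, Finset.sum_filter]
  rw [Finset.sum_congr rfl e, Finset.sum_comm]
  apply Finset.sum_le_sum
  intro y _
  rw [← Finset.sum_filter, Finset.sum_const, nsmul_eq_mul]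
  have h1 : (X.filter (fun x => cc y = cc x)).card ≤ 1 := by
    rw [Finset.card_le_one]
    intro a ha b hb
    rw [Finset.mem_filter] at ha hb
    exact hX a ha.1 b hb.1 (ha.2.symm.trans hb.2)
  have h2 : ((X.filter (fun x => cc y = cc x)).card : ℚ) ≤ 1 := by exact_mod_cast h1
  have h3 := wtg_nonneg (R := R) (cc := cc) (cs := cs) hq g y
  nlinarith

end

end Pool.Agent.Helper28.U4
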