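import Pool.Agent.Helper28.U4.Shares

/-!
# Level three
-/

set_option autoImplicit false
set_option linter.unusedSectionVars false

namespace Pool.Agent.Helper28.U4

open Pool.Agent.Helper28.BPack Pool.Agent.Helper61.Motz Pool.Agent.Helper38.Thick

variable {L : Type} [Lattice L] [BoundedOrder L] [Finite L] [IsUpperModularLattice L]

section

variable [DecidableEq L] [DecidableRel (α := L) (· ≤ ·)]

/-- The sum over a pencil of the numbers of points of `K` on the lines. -/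
theorem sum_pen {A K : Finset L} {x k H : L} (hK : ∀ z ∈ K, z ∈ A ∧ z ≤ H ∧ ¬ z ≤ k) :
    ∑ g ∈ pen A x k H, (K.filter (fun z => x ⊔ z = g)).card = K.card := by
  symm
  apply Finset.card_eq_sum_card_fiberwise
  intro z hz
  have h := hK z hz
  exact mem_pen.mpr ⟨z, h.1, h.2.1, h.2.2, rfl⟩

theorem arith1 {q w Z M : ℚ} (hq : 2 ≤ q) (hw : q + 1 ≤ w) (hZM : 1 ≤ Z + M) (hM : 0 ≤ M) :
    q ^ 2 ≤ w * (q - 1) + Z + M * (q - 1) := by
  have h1 : (q + 1) * (q - 1) ≤ w * (q - 1) := mul_le_mul_of_nonneg_right hw (by linarith)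
  have h2 : M * 1 ≤ M * (q - 1) := mul_le_mul_of_nonneg_left (by linarith) hM
  have h3 : (q + 1) * (q - 1) = q ^ 2 - 1 := by ring
  linarith

theorem arith2 {q Z M : ℚ} (hq : 2 ≤ q) (hZM : q ≤ Z + M) (hM : 0 ≤ M) :
    q ^ 2 ≤ q * (q - 1) + Z + M * (q - 1) := by
  have h2 : M * 1 ≤ M * (q - 1) := mul_le_mul_of_nonneg_left (by linarith) hM
  have h3 : q * (q - 1) = q ^ 2 - q := by ring
  linarith

/-- The value of a pencil for a colour which is not the last one. -/
theorem value {A R U' : Finset L} {u cs : L} {r cc : L → L} {q : ℕ} (hA : ∀ a ∈ A, IsAtom a)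
    (hu : rk u = 2) (hq : 2 ≤ q) (hU : ∀ c ∈ U', c ∈ A ∧ c ≤ u)
    (hrow : ∀ c ∈ U', ∀ x ∈ A, ¬ x ≤ u → (A.filter (· ≤ x ⊔ c)).card = q + 1)
    (hskew : ∀ g, rk g = 2 → (∀ c ∈ A, c ≤ u → ¬ c ≤ g) → (A.filter (· ≤ g)).card ≤ q + 1)
    (hmR : ∀ x, x ∈ R ↔ x ∈ A ∧ ¬ x ≤ u ∧ r x ≠ x)
    (hr : ∀ x ∈ A, ¬ x ≤ u → r x ∈ A ∧ ¬ r x ≤ u ∧ r x ≤ x ⊔ u)
    (hrr : ∀ x ∈ A, ¬ x ≤ u → ∀ y ∈ A, ¬ y ≤ u → y ≤ x ⊔ u → r x = r y)
    (hccU : ∀ x ∈ R, cc x ∈ U') (hccr : ∀ x ∈ R, ¬ r x ≤ x ⊔ cc x)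
    (hinj : ∀ x ∈ R, ∀ y ∈ R, x ⊔ cc x = y ⊔ cc y → x = y)
    (hS : ∀ c ∈ U', c ≠ cs → ∀ z ∈ A, ¬ z ≤ u → ¬ r z ≤ z ⊔ c →
      ∃ x ∈ R, cc x = c ∧ x ⊔ c = z ⊔ c)
    {x H : L} (hx : x ∈ R) (hH : rk H = 3) (hle : x ⊔ cc x ≤ H) (huH : ¬ u ≤ H)
    (hex : ∃ z ∈ A, z ≤ H ∧ ¬ z ≤ x ⊔ cc x) :
    (1 : ℚ) ≤ ∑ g ∈ pen A x (x ⊔ cc x) H, share R cc cs q g (cc x) := by
  have hq1 : 1 ≤ q := by omega
  have hqq : (2 : ℚ) ≤ q := by exact_mod_cast hq
  obtain ⟨hxA, hxu, hrx⟩ := (hmR x).mp hx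
  obtain ⟨hc, hcu⟩ := hU (cc x) (hccU x hx)
  set c := cc x with hcdef
  have hxc : x ≠ c := fun h => hxu (by rw [h]; exact hcu)
  have hcH : c ≤ H := le_sup_right.trans hle
  obtain ⟨z0, hz0, hz0H, hz0k⟩ := hex
  have hpf := fun g hg => pen_facts (g := g) hA hu hxA hxu hc hcu hH hle huH hg
  have hoffu : ∀ z ∈ A, z ≤ H → ¬ z ≤ x ⊔ c → ¬ z ≤ u := fun z hz hzH hzk =>
    off_u hA hu hc hcu le_sup_right hle huH hz hzH hzk
  have hwq : q ≤ (pen A x (x ⊔ c) H).card := pen_card hA hu hxA hxu hc hcu hle huH hz0 hz0H hz0k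
    (hrow c (hccU x hx) z0 hz0 (hoffu z0 hz0 hz0H hz0k))
  have hxus : ∀ g ∈ pen A x (x ⊔ c) H, x ∈ us R g := fun g hg =>
    Finset.mem_filter.mpr ⟨hx, (hpf g hg).2.1⟩
  have hgcard : ∀ g ∈ pen A x (x ⊔ c) H, (A.filter (· ≤ g)).card ≤ q + 1 := fun g hg =>
    hskew g (hpf g hg).1 (hpf g hg).2.2.2.2.2
  have husA : ∀ g, us R g ⊆ A.filter (· ≤ g) := by
    intro g y hy
    have h1 := Finset.mem_filter.mp hy
    exact Finset.mem_filter.mpr ⟨((hmR y).mp h1.1).1, h1.2⟩
  have husq : ∀ g ∈ pen A x (x ⊔ c) H, (us R g).card ≤ q + 1 := fun g hg =>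
    (Finset.card_le_card (husA g)).trans (hgcard g hg)
  by_cases hcs : c = cs
  · -- the last colour
    have h1 : ∀ g ∈ pen A x (x ⊔ c) H, (1 : ℚ) / q ≤ share R cc cs q g c := by
      intro g hg
      rw [hcs]
      exact share_last hq1 (husq g hg) (hxus g hg) (hcdef.symm.trans hcs)
    have h2 := Finset.sum_le_sum h1
    rw [Finset.sum_const, nsmul_eq_mul, mul_one_div] at h2
    refine le_trans ?_ h2
    rw [le_div_iff₀ (by linarith), one_mul]
    exact_mod_cast hwq
  · -- the other colours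
    set Z : Finset L := A.filter (fun z => (z ≤ H ∧ ¬ z ≤ x ⊔ c) ∧ r z = z) with hZ
    set M : Finset L := R.filter (fun y => y ≤ H ∧ cc y = c ∧ y ≠ x) with hM
    have hMk : ∀ y ∈ M, y ∈ R ∧ y ∈ A ∧ y ≤ H ∧ cc y = c ∧ y ≠ x ∧ ¬ y ≤ x ⊔ c := by
      intro y hy
      rw [hM, Finset.mem_filter] at hy
      obtain ⟨h1, h2, h3, h4⟩ := hy
      obtain ⟨hyA, hyu, -⟩ := (hmR y).mp h1
      refine ⟨h1, hyA, h2, h3, h4, ?_⟩
      intro hyk
      have hyc : y ≠ c := fun h => hyu (by rw [h]; exact hcu)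
      have e : y ⊔ c = x ⊔ c := line_of (hA y hyA) (hA c hc) hyc hyk le_sup_right
        (rk_line (hA x hxA) (hA c hc) hxc)
      exact h4 (hinj y h1 x hx (by rw [h3, ← hcdef]; exact e))
    have hZM : Disjoint Z M := by
      rw [Finset.disjoint_left]
      intro y h1 h2
      rw [hZ, Finset.mem_filter] at h1
      exact ((hmR y).mp (hMk y h2).1).2.2 h1.2.2
    -- every row meets Z or M
    have hmeet : ∀ z ∈ A, z ≤ H → ¬ z ≤ x ⊔ c → ∃ z' ∈ Z ∪ M, z' ⊔ c = z ⊔ c := by
      intro z hz hzH hzk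
      have hzu := hoffu z hz hzH hzk
      have hzc : z ≠ c := fun h => hzu (by rw [h]; exact hcu)
      by_cases hrz : r z ≤ z ⊔ c
      · have h1 := hr z hz hzu
        have hrzc : r z ≠ c := fun h => h1.2.1 (by rw [h]; exact hcu)
        have e1 : r z ⊔ c = z ⊔ c := line_of (hA _ h1.1) (hA c hc) hrzc hrz le_sup_right
          (rk_line (hA z hz) (hA c hc) hzc)
        refine ⟨r z, Finset.mem_union_left _ ?_, e1⟩
        rw [hZ, Finset.mem_filter]
        refine ⟨h1.1, ⟨hrz.trans (sup_le hzH hcH), ?_⟩, (hrr z hz hzu (r z) h1.1 h1.2.1 h1.2.2).symm⟩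
        intro h2
        have e2 : r z ⊔ c = x ⊔ c := line_of (hA _ h1.1) (hA c hc) hrzc h2 le_sup_right
          (rk_line (hA x hxA) (hA c hc) hxc)
        exact hzk (by rw [← e2, e1]; exact le_sup_left)
      · obtain ⟨y, hy, hyc, hyz⟩ := hS c (hccU x hx) hcs z hz hzu hrz
        refine ⟨y, Finset.mem_union_right _ ?_, hyz⟩
        rw [hM, Finset.mem_filter]
        have hyH : y ≤ H := (le_sup_left : y ≤ y ⊔ c).trans (hyz.le.trans (sup_le hzH hcH))
        refine ⟨hy, hyH, hyc, ?_⟩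
        intro h
        rw [h] at hyz
        exact hzk (by rw [hyz]; exact le_sup_left)
    -- the number of points of Z and M
    have hcardT : ∀ T : Finset L, (∀ z ∈ T, z ∈ A ∧ z ≤ H ∧ ¬ z ≤ x ⊔ c) →
        (∀ z ∈ T, ∀ z' ∈ T, z ⊔ c = z' ⊔ c → z = z') → T.card ≤ Z.card + M.card := by
      intro T hT hTi
      have h1 : ∀ z : {z // z ∈ T}, ∃ z' ∈ Z ∪ M, z' ⊔ c = z.1 ⊔ c := fun z =>
        hmeet z.1 (hT z.1 z.2).1 (hT z.1 z.2).2.1 (hT z.1 z.2).2.2
      choose f hf hfe using h1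
      have h2 : T.attach.card ≤ (Z ∪ M).card := by
        apply Finset.card_le_card_of_injOn f (fun z _ => hf z)
        intro z _ z' _ e
        apply Subtype.ext
        apply hTi z.1 z.2 z'.1 z'.2
        rw [← hfe z, ← hfe z', e]
      rw [Finset.card_attach, Finset.card_union_of_disjoint hZM] at h2
      exact h2
    -- the share on one line
    have hshare : ∀ g ∈ pen A x (x ⊔ c) H,
        ((q : ℚ) - 1 + (Z.filter (fun z => x ⊔ z = g)).card) / q ^ 2 +
          (M.filter (fun z => x ⊔ z = g)).card * (((q : ℚ) - 1) / q ^ 2) ≤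
        share R cc cs q g c := by
      intro g hg
      apply share_low hq1 _ (hxus g hg) (fun h => hcs (hcdef.trans h))
      · intro y hy
        rw [Finset.mem_filter] at hy
        obtain ⟨h1, h2, h3, h4, h5, h6⟩ := hMk y hy.1
        exact ⟨Finset.mem_filter.mpr ⟨h1, hy.2 ▸ le_sup_right⟩, h4, h5⟩
      · refine le_trans ?_ (hgcard g hg)
        rw [← Finset.card_union_of_disjoint]
        · apply Finset.card_le_card
          intro y hy
          rw [Finset.mem_union] at hy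
          rcases hy with hy | hy
          · exact husA g hy
          · rw [Finset.mem_filter, hZ, Finset.mem_filter] at hy
            exact Finset.mem_filter.mpr ⟨hy.1.1, hy.2 ▸ le_sup_right⟩
        · rw [Finset.disjoint_left]
          intro y h1 h2
          rw [Finset.mem_filter, hZ, Finset.mem_filter] at h2
          exact ((hmR y).mp (Finset.mem_filter.mp h1).1).2.2 h2.1.2.2
    have hsumZ := sum_pen (A := A) (K := Z) (x := x) (k := x ⊔ c) (H := H) (by
      intro z hz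
      rw [hZ, Finset.mem_filter] at hz
      exact ⟨hz.1, hz.2.1⟩)
    have hsumM := sum_pen (A := A) (K := M) (x := x) (k := x ⊔ c) (H := H) (by
      intro z hz
      obtain ⟨-, h2, h3, -, -, h6⟩ := hMk z hz
      exact ⟨h2, h3, h6⟩)
    have hq2 : (0 : ℚ) < q ^ 2 := by positivity
    have htot : (((pen A x (x ⊔ c) H).card : ℚ) * (q - 1) + Z.card + M.card * (q - 1)) / q ^ 2 ≤
        ∑ g ∈ pen A x (x ⊔ c) H, share R cc cs q g c := by
      refine le_trans (le_of_eq ?_) (Finset.sum_le_sum hshare)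
      rw [Finset.sum_add_distrib, ← Finset.sum_mul, ← Finset.sum_div, Finset.sum_add_distrib,
        Finset.sum_const, nsmul_eq_mul, ← Nat.cast_sum, ← Nat.cast_sum, hsumZ, hsumM]
      ring
    rcases Nat.lt_or_ge q (pen A x (x ⊔ c) H).card with hw | hw
    · -- many lines
      refine le_trans ?_ htot
      rw [le_div_iff₀ hq2, one_mul]
      have h1 : 1 ≤ Z.card + M.card := by
        have := hcardT {z0} (by
          intro z hz
          rw [Finset.mem_singleton] at hz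
          rw [hz]
          exact ⟨hz0, hz0H, hz0k⟩) (by
          intro z hz z' hz' _
          rw [Finset.mem_singleton] at hz hz'
          rw [hz, hz'])
        simpa using this
      have h1' : (1 : ℚ) ≤ Z.card + M.card := by exact_mod_cast h1
      have h2 : (q : ℚ) + 1 ≤ (pen A x (x ⊔ c) H).card := by exact_mod_cast hw
      exact arith1 hqq h2 h1' (Nat.cast_nonneg _)
    · have hweq : (pen A x (x ⊔ c) H).card = q := le_antisymm hw hwq
      by_cases hlong : ∃ g ∈ pen A x (x ⊔ c) H, q < (A.filter (· ≤ g)).card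
      · obtain ⟨g, hg, hgq⟩ := hlong
        refine le_trans ?_ htot
        rw [le_div_iff₀ hq2, one_mul]
        obtain ⟨g2, gx, gH, gc, gcH, gu⟩ := hpf g hg
        have h1 : q ≤ Z.card + M.card := by
          refine le_trans ?_ (hcardT ((A.filter (· ≤ g)).erase x) ?_ ?_)
          · rw [Finset.card_erase_of_mem (Finset.mem_filter.mpr ⟨hxA, gx⟩)]
            omega
          · intro z hz
            rw [Finset.mem_erase, Finset.mem_filter] at hz
            refine ⟨hz.2.1, hz.2.2.trans gH, ?_⟩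
            intro h2
            have e1 : z ⊔ x = g := line_of (hA z hz.2.1) (hA x hxA) hz.1 hz.2.2 gx g2
            have e2 : z ⊔ x = x ⊔ c := line_of (hA z hz.2.1) (hA x hxA) hz.1 h2 le_sup_left
              (rk_line (hA x hxA) (hA c hc) hxc)
            exact gc (by rw [← e1, e2]; exact le_sup_right)
          · intro z hz z' hz' e
            rw [Finset.mem_erase, Finset.mem_filter] at hz hz'
            by_contra hne
            have hzc : z ≠ c := fun h => gc (h ▸ hz.2.2)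
            have e1 : z ⊔ z' = g := line_of (hA z hz.2.1) (hA z' hz'.2.1) hne hz.2.2 hz'.2.2 g2
            have e2 : z ⊔ z' = z ⊔ c := line_of (hA z hz.2.1) (hA z' hz'.2.1) hne le_sup_left
              (by rw [e]; exact le_sup_left) (rk_line (hA z hz.2.1) (hA c hc) hzc)
            exact gc (by rw [← e1, e2]; exact le_sup_right)
        have h1' : (q : ℚ) ≤ Z.card + M.card := by exact_mod_cast h1
        rw [hweq]
        exact arith2 hqq h1' (Nat.cast_nonneg _)
      · push Not at hlong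
        have h1 : ∀ g ∈ pen A x (x ⊔ c) H, (1 : ℚ) / q ≤ share R cc cs q g c := fun g hg =>
          share_short hq1 ((Finset.card_le_card (husA g)).trans (hlong g hg)) (hxus g hg)
        have h2 := Finset.sum_le_sum h1
        rw [Finset.sum_const, nsmul_eq_mul, mul_one_div, hweq] at h2
        refine le_trans ?_ h2
        rw [div_self (by linarith)]

end

end Pool.Agent.Helper28.U4
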